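import Pool.Agent.R938.RPE.Kern

/-!
# Project RP, piece RP-E: the averaged estimate
-/

set_option autoImplicit false

open MeasureTheory Polynomial Filter Topology
open scoped BigOperators Real

namespace Pool.Agent.R938.RPE

open Pool.Agent.R244.RP

theorem norm_neg_ec (n : ℤ) (s : ℝ) : ‖ec (-n) s - 1‖ = ‖ec n s - 1‖ := by
  rw [← ec_conj, ← map_one (starRingEnd ℂ), ← map_sub, RCLike.norm_conj, map_one]

noncomputable def J (m k : ℕ) : ℝ := ∫ s, Fe m s * ‖ec k s - 1‖ ^ 2 ∂μ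

theorem lin {m : ℕ} (hm : 0 < m) (A : ℕ) (a : ℝ) (b : ℕ → ℝ) :
    ∫ w, Fe m w * (a + ∑ k ∈ Finset.range A, b k * ‖ec k w - 1‖ ^ 2) ∂μ
      = a + ∑ k ∈ Finset.range A, b k * J m k := by
  have h1 : ∀ w, Fe m w * (a + ∑ k ∈ Finset.range A, b k * ‖ec k w - 1‖ ^ 2)
      = a * Fe m w + ∑ k ∈ Finset.range A, b k * (Fe m w * ‖ec k w - 1‖ ^ 2) := by
    intro w
    rw [mul_add, Finset.mul_sum, mul_comm a]
    congr 1
    exact Finset.sum_congr rfl fun k _ => by ring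
  simp only [h1]
  rw [integral_add (int_of_cont (by fun_prop)) (int_of_cont (by fun_prop)), integral_const_mul,
    int_Fe hm, integral_finsetSum _ fun k _ => int_of_cont (by fun_prop)]
  simp only [integral_const_mul, mul_one]
  rfl

/-- the kernel -/
noncomputable def Kf (G H : ℕ → ℂ) (A B : ℕ) (u t : ℝ) : ℂ :=
  ∑ k ∈ Finset.range A, ∑ l ∈ Finset.range B, ((k + l : ℕ) : ℂ)⁻¹ *
    ((G k * (ec (-(k : ℤ)) u - 1) * ec k t) * (H l * ec (-(l : ℤ)) u * ec l t))

noncomputable def Ph (γ : ℕ → ℝ → ℂ) (s : ℝ) (A : ℕ) (u t : ℝ) : ℝ :=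
  ∑ k ∈ Finset.range A, ∑ l ∈ Finset.range A,
      (γ k u * ec k t * (starRingEnd ℂ) (γ l u * ec l t)).re * cc s (k + l)

theorem cont_Ph {γ : ℕ → ℝ → ℂ} (hγ : ∀ k, Continuous (γ k)) (s : ℝ) (A : ℕ)
    {X : Type*} [TopologicalSpace X] {f g : X → ℝ} (hf : Continuous f) (hg : Continuous g) :
    Continuous fun x => Ph γ s A (f x) (g x) := by
  unfold Ph
  refine continuous_finsetSum _ fun k _ => continuous_finsetSum _ fun l _ => ?_
  have h1 := (hγ k).comp hf
  have h2 := (hγ l).comp hf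
  simp only [Function.comp_def] at h1 h2
  fun_prop

theorem int_Ph (γ : ℕ → ℝ → ℂ) (s : ℝ) (A : ℕ) (u : ℝ) :
    ∫ t, Ph γ s A u t ∂μ = ∑ k ∈ Finset.range A, ‖γ k u‖ ^ 2 * cc s (k + k) :=
  orth' A (fun k => γ k u) (fun k l => cc s (k + l))

theorem cont_Kf (G H : ℕ → ℂ) (A B : ℕ) {X : Type*} [TopologicalSpace X] {f g : X → ℝ}
    (hf : Continuous f) (hg : Continuous g) : Continuous fun x => Kf G H A B (f x) (g x) := by
  unfold Kf
  fun_prop

theorem avg_est {m : ℕ} (hm : 0 < m) {V : ℝ → ℂ}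
    (hVb : ∀ u, ‖V u‖ ≤ 61 * Fe m u) (G H : ℕ → ℂ) (hH : H 0 = 0) (A B : ℕ) {W : ℝ} (hW : 0 < W) :
    ∫ s, Fe m s * (∫ t, ‖∫ u, V (u - s) * Kf G H A B u t ∂μ‖ ∂μ) ∂μ
      ≤ 61 / 2 * (W * ∑ k ∈ Finset.range A,
          ‖G k‖ ^ 2 * cc (-(1 / 2)) (k + k) * (16 * min 1 ((k : ℝ) / m))
        + W⁻¹ * ∑ l ∈ Finset.range B, ‖H l‖ ^ 2 * cc (1 / 2) (l + l)) := by
  set γ : ℕ → ℝ → ℂ := fun k u => G k * (ec (-(k : ℤ)) u - 1) with hγ
  set δ : ℕ → ℝ → ℂ := fun l u => H l * ec (-(l : ℤ)) u with hδ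
  have hγc : ∀ k, Continuous (γ k) := fun k => by simp only [hγ]; fun_prop
  have hδc : ∀ k, Continuous (δ k) := fun k => by simp only [hδ]; fun_prop
  set S2 : ℝ := ∑ l ∈ Finset.range B, ‖H l‖ ^ 2 * cc (1 / 2) (l + l) with hS2
  set C : ℕ → ℝ := fun k => ‖G k‖ ^ 2 * cc (-(1 / 2)) (k + k) with hC
  have hCn : ∀ k, 0 ≤ C k := fun k => mul_nonneg (sq_nonneg _) (cc_nonneg _ _)
  have hK : ∀ u t, ‖Kf G H A B u t‖
      ≤ 1 / 2 * (W * Ph γ (-(1 / 2)) A u t + W⁻¹ * Ph δ (1 / 2) B u t) := by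
    intro u t
    exact lemL A B (α := fun k => γ k u * ec k t) (β := fun l => δ l u * ec l t)
      (by simp [hγ, ec_zero]) (by simp [hδ, hH]) hW
  have hS1 : ∀ u, ∫ t, Ph γ (-(1 / 2)) A u t ∂μ
      = ∑ k ∈ Finset.range A, C k * ‖ec k u - 1‖ ^ 2 := by
    intro u
    rw [int_Ph]
    refine Finset.sum_congr rfl fun k _ => ?_
    simp only [hγ, hC]
    rw [norm_mul, mul_pow, norm_neg_ec]
    ring
  have hS2' : ∀ u, ∫ t, Ph δ (1 / 2) B u t ∂μ = S2 := by
    intro u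
    rw [int_Ph, hS2]
    refine Finset.sum_congr rfl fun k _ => ?_
    simp only [hδ]
    rw [norm_mul, norm_ec, mul_one]
  -- the inner average
  have hin : ∀ s, ∫ t, ‖∫ u, V (u - s) * Kf G H A B u t ∂μ‖ ∂μ
      ≤ (61 / 2 * (W⁻¹ * S2) + ∑ k ∈ Finset.range A, 61 * W * C k * J m k)
        + ∑ k ∈ Finset.range A, 61 * W * C k * ‖ec k s - 1‖ ^ 2 := by
    intro s
    set M : ℝ → ℝ → ℝ := fun t u => 61 * Fe m (u - s) *
      (1 / 2 * (W * Ph γ (-(1 / 2)) A u t + W⁻¹ * Ph δ (1 / 2) B u t)) with hM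
    have hMc : Continuous (Function.uncurry M) := by
      have h1 : Continuous fun z : ℝ × ℝ => Ph γ (-(1 / 2)) A z.2 z.1 :=
        cont_Ph hγc _ _ continuous_snd continuous_fst
      have h2 : Continuous fun z : ℝ × ℝ => Ph δ (1 / 2) B z.2 z.1 :=
        cont_Ph hδc _ _ continuous_snd continuous_fst
      change Continuous fun z : ℝ × ℝ => 61 * Fe m (z.2 - s) *
        (1 / 2 * (W * Ph γ (-(1 / 2)) A z.2 z.1 + W⁻¹ * Ph δ (1 / 2) B z.2 z.1))
      fun_prop
    have h1 : ∫ t, ‖∫ u, V (u - s) * Kf G H A B u t ∂μ‖ ∂μ ≤ ∫ t, ∫ u, M t u ∂μ ∂μ := by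
      refine integral_mono_of_nonneg (Eventually.of_forall fun t => norm_nonneg _)
        (int2 hMc).integral_prod_left (Eventually.of_forall fun t => ?_)
      have hMt : Continuous (M t) := by
        have := hMc.comp (Continuous.prodMk_right t)
        exact this
      refine norm_integral_le_of_norm_le (int_of_cont hMt) (Eventually.of_forall fun u => ?_)
      rw [norm_mul]
      exact mul_le_mul (hVb _) (hK u t) (norm_nonneg _)
        (mul_nonneg (by norm_num) (Fe_nonneg _ _))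
    have h2 : ∀ u, ∫ t, M t u ∂μ = 61 * Fe m (u - s) *
        (1 / 2 * (W * (∑ k ∈ Finset.range A, C k * ‖ec k u - 1‖ ^ 2) + W⁻¹ * S2)) := by
      intro u
      have c1 : Continuous fun t => Ph γ (-(1 / 2)) A u t :=
        cont_Ph hγc _ _ continuous_const continuous_id
      have c2 : Continuous fun t => Ph δ (1 / 2) B u t :=
        cont_Ph hδc _ _ continuous_const continuous_id
      simp only [hM]
      rw [integral_const_mul, integral_const_mul, integral_add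
        (int_of_cont (by fun_prop)) (int_of_cont (by fun_prop)), integral_const_mul,
        integral_const_mul, hS1, hS2']
    rw [swap hMc] at h1
    simp only [h2] at h1
    refine h1.trans ?_
    set F : ℝ → ℝ := fun w => Fe m w * ((61 / 2 * (W⁻¹ * S2)
      + ∑ k ∈ Finset.range A, 61 * W * C k * ‖ec k s - 1‖ ^ 2)
      + ∑ k ∈ Finset.range A, 61 * W * C k * ‖ec k w - 1‖ ^ 2) with hF
    have hFp : Function.Periodic F (2 * π) := by
      intro w
      simp only [hF, Fe_per m w, ec_per _ w]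
    have h3 : ∫ u, F (u - s) ∂μ = (61 / 2 * (W⁻¹ * S2)
      + ∑ k ∈ Finset.range A, 61 * W * C k * ‖ec k s - 1‖ ^ 2)
      + ∑ k ∈ Finset.range A, 61 * W * C k * J m k := by
      rw [trans hFp]
      exact lin hm A _ _
    have h4 : ∀ u, 61 * Fe m (u - s) *
        (1 / 2 * (W * (∑ k ∈ Finset.range A, C k * ‖ec k u - 1‖ ^ 2) + W⁻¹ * S2)) ≤ F (u - s) := by
      intro u
      have h5 : W * (∑ k ∈ Finset.range A, C k * ‖ec k u - 1‖ ^ 2)
          ≤ ∑ k ∈ Finset.range A, (2 * W * C k * ‖ec k s - 1‖ ^ 2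
            + 2 * W * C k * ‖ec k (u - s) - 1‖ ^ 2) := by
        rw [Finset.mul_sum]
        refine Finset.sum_le_sum fun k _ => ?_
        have h6 := mul_le_mul_of_nonneg_left (shift_le k s u) (mul_nonneg hW.le (hCn k))
        linarith
      rw [Finset.sum_add_distrib] at h5
      have h7 : ∀ w : ℝ, ∑ k ∈ Finset.range A, 61 * W * C k * ‖ec k w - 1‖ ^ 2
          = 61 / 2 * ∑ k ∈ Finset.range A, 2 * W * C k * ‖ec k w - 1‖ ^ 2 := by
        intro w
        rw [Finset.mul_sum]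
        exact Finset.sum_congr rfl fun k _ => by ring
      have h8 : F (u - s) = Fe m (u - s) * (61 / 2 * ((∑ k ∈ Finset.range A, 2 * W * C k * ‖ec k s - 1‖ ^ 2
            + ∑ k ∈ Finset.range A, 2 * W * C k * ‖ec k (u - s) - 1‖ ^ 2) + W⁻¹ * S2)) := by
        simp only [hF, h7]
        ring
      rw [h8]
      have h9 := mul_le_mul_of_nonneg_left h5 (Fe_nonneg m (u - s))
      linarith
    have h10 : ∫ u, 61 * Fe m (u - s) *
        (1 / 2 * (W * (∑ k ∈ Finset.range A, C k * ‖ec k u - 1‖ ^ 2) + W⁻¹ * S2)) ∂μ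
        ≤ ∫ u, F (u - s) ∂μ := by
      refine integral_mono (int_of_cont (by fun_prop)) (int_of_cont ?_) h4
      simp only [hF]
      fun_prop
    rw [h3] at h10
    linarith
  -- the outer average
  have hout : ∫ s, Fe m s * (∫ t, ‖∫ u, V (u - s) * Kf G H A B u t ∂μ‖ ∂μ) ∂μ
      ≤ ∫ s, Fe m s * ((61 / 2 * (W⁻¹ * S2) + ∑ k ∈ Finset.range A, 61 * W * C k * J m k)
        + ∑ k ∈ Finset.range A, 61 * W * C k * ‖ec k s - 1‖ ^ 2) ∂μ := by
    refine integral_mono_of_nonneg (Eventually.of_forall fun s => ?_) (int_of_cont (by fun_prop))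
      (Eventually.of_forall fun s => ?_)
    · exact mul_nonneg (Fe_nonneg _ _) (integral_nonneg fun t => norm_nonneg _)
    · exact mul_le_mul_of_nonneg_left (hin s) (Fe_nonneg _ _)
  rw [lin hm] at hout
  refine hout.trans ?_
  have hJ : ∑ k ∈ Finset.range A, 61 * W * C k * J m k
      ≤ 61 / 4 * (W * ∑ k ∈ Finset.range A, C k * (16 * min 1 ((k : ℝ) / m))) := by
    rw [Finset.mul_sum, Finset.mul_sum]
    refine Finset.sum_le_sum fun k _ => ?_
    have h1 : J m k ≤ 4 * min 1 ((k : ℝ) / m) := J_le hm k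
    have h2 := mul_le_mul_of_nonneg_left h1 (mul_nonneg hW.le (hCn k))
    linarith
  linarith

end Pool.Agent.R938.RPE
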