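import Pool.Agent.R244.RP.Stm

/-!
# Project RP, piece RP-E: basic facts on characters, averages and Fejér kernels
-/

set_option autoImplicit false

open MeasureTheory Polynomial Filter Topology
open scoped BigOperators Real

namespace Pool.Agent.R938.RPE

open Pool.Agent.R244.RP

/-! ### characters -/

theorem ec_zero (t : ℝ) : ec 0 t = 1 := by simp [ec]

theorem ec_add (m n : ℤ) (t : ℝ) : ec (m + n) t = ec m t * ec n t := by
  unfold ec; rw [← Complex.exp_add]; push_cast; ring_nf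

theorem ec_sub_arg (n : ℤ) (t s : ℝ) : ec n (t - s) = ec n t * ec (-n) s := by
  unfold ec; rw [← Complex.exp_add]; push_cast; ring_nf

theorem norm_ec (n : ℤ) (t : ℝ) : ‖ec n t‖ = 1 := by
  unfold ec
  rw [Complex.norm_exp]
  simp

theorem ec_conj (n : ℤ) (t : ℝ) : (starRingEnd ℂ) (ec n t) = ec (-n) t := by
  unfold ec; rw [← Complex.exp_conj]; simp

theorem ec_neg_mul (n : ℤ) (t : ℝ) : ec (-n) t * ec n t = 1 := by
  rw [← ec_add]; simp [ec_zero]

theorem ec_pow (n : ℕ) (t : ℝ) : ec (n : ℤ) t = ec 1 t ^ n := by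
  unfold ec; rw [← Complex.exp_nat_mul]; push_cast; ring_nf

@[fun_prop]
theorem cont_ec {X : Type*} [TopologicalSpace X] (n : ℤ) {f : X → ℝ} (hf : Continuous f) :
    Continuous fun x => ec n (f x) := by unfold ec; fun_prop

theorem ec_per (n : ℤ) : Function.Periodic (ec n) (2 * π) := by
  intro t
  unfold ec
  have h : (n : ℂ) * ((t + 2 * π : ℝ) : ℂ) * Complex.I
      = n * t * Complex.I + n * (2 * π * Complex.I) := by push_cast; ring
  rw [h, Complex.exp_add, Complex.exp_int_mul_two_pi_mul_I, mul_one]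

/-! ### the normalized measure -/

/-- the normalized measure on a period -/
noncomputable def μ : Measure ℝ := ENNReal.ofReal (2 * π)⁻¹ • volume.restrict (Set.Ioc 0 (2 * π))

theorem tp : (0 : ℝ) < 2 * π := by positivity

theorem avr_eq (F : ℝ → ℝ) : avr F = ∫ t, F t ∂μ := by
  unfold avr μ
  rw [intervalIntegral.integral_of_le tp.le, integral_smul_measure,
    ENNReal.toReal_ofReal (by positivity)]
  rfl

theorem av_eq (F : ℝ → ℂ) : av F = ∫ t, F t ∂μ := by
  unfold av μ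
  rw [intervalIntegral.integral_of_le tp.le, integral_smul_measure,
    ENNReal.toReal_ofReal (by positivity)]
  simp

instance : IsFiniteMeasure μ := Measure.smul_finite _ ENNReal.ofReal_ne_top

theorem int_of_cont {E : Type*} [NormedAddCommGroup E] [NormedSpace ℝ E]
    {f : ℝ → E} (hf : Continuous f) : Integrable f μ := by
  unfold μ
  exact ((hf.integrableOn_Icc (a := 0) (b := 2 * π)).mono_set
    Set.Ioc_subset_Icc_self).smul_measure ENNReal.ofReal_ne_top

theorem int2 {f : ℝ → ℝ → ℝ} (hf : Continuous (Function.uncurry f)) :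
    Integrable (Function.uncurry f) (μ.prod μ) := by
  have hK : IsCompact (Set.Icc (0 : ℝ) (2 * π) ×ˢ Set.Icc (0 : ℝ) (2 * π)) :=
    isCompact_Icc.prod isCompact_Icc
  obtain ⟨C, hC⟩ := hK.exists_bound_of_continuousOn hf.continuousOn
  refine Integrable.of_bound hf.aestronglyMeasurable C ?_
  have h1 : ∀ᵐ x ∂μ, x ∈ Set.Icc (0 : ℝ) (2 * π) := by
    unfold μ
    refine Measure.ae_smul_measure ?_ _
    filter_upwards [ae_restrict_mem measurableSet_Ioc] with x hx
    exact Set.Ioc_subset_Icc_self hx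
  have h2 : ∀ᵐ z ∂(μ.prod μ), z ∈ Set.Icc (0 : ℝ) (2 * π) ×ˢ Set.Icc (0 : ℝ) (2 * π) := by
    have ha := Measure.quasiMeasurePreserving_fst (μ := μ) (ν := μ) |>.ae h1
    have hb := Measure.quasiMeasurePreserving_snd (μ := μ) (ν := μ) |>.ae h1
    filter_upwards [ha, hb] with z h3 h4
    exact ⟨h3, h4⟩
  filter_upwards [h2] with z hz
  exact hC z hz

theorem swap {f : ℝ → ℝ → ℝ} (hf : Continuous (Function.uncurry f)) :
    ∫ x, ∫ y, f x y ∂μ ∂μ = ∫ y, ∫ x, f x y ∂μ ∂μ := integral_integral_swap (int2 hf)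

theorem int_const (c : ℝ) : ∫ _, c ∂μ = c := by
  rw [← avr_eq]
  unfold avr
  rw [intervalIntegral.integral_const]
  have := tp.ne'
  simp only [sub_zero, smul_eq_mul]
  field_simp

theorem int_ec (n : ℤ) : ∫ t, ec n t ∂μ = if n = 0 then 1 else 0 := by
  rw [← av_eq]
  unfold av
  split_ifs with h
  · subst h
    simp only [ec_zero]
    rw [intervalIntegral.integral_const]
    have := tp.ne'
    have h2 : ((2 * π : ℝ) : ℂ) ≠ 0 := by exact_mod_cast this
    simp only [sub_zero, Complex.real_smul, mul_one]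
    exact inv_mul_cancel₀ h2
  · have hn : (n : ℂ) * Complex.I ≠ 0 := mul_ne_zero (by exact_mod_cast h) Complex.I_ne_zero
    have h1 : ∀ t : ℝ, ec n t = Complex.exp ((n * Complex.I) * t) := by
      intro t; unfold ec; ring_nf
    simp only [h1]
    rw [integral_exp_mul_complex hn]
    have h2 : Complex.exp (n * Complex.I * ((2 * π : ℝ) : ℂ)) = 1 := by
      have := Complex.exp_int_mul_two_pi_mul_I n
      rw [← this]
      congr 1
      push_cast
      ring
    rw [h2]
    simp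

theorem trans {f : ℝ → ℝ} (hf : Function.Periodic f (2 * π)) (s : ℝ) :
    ∫ t, f (t - s) ∂μ = ∫ t, f t ∂μ := by
  rw [← avr_eq, ← avr_eq (fun t => f t)]
  unfold avr
  rw [intervalIntegral.integral_comp_sub_right (fun t => f t) s]
  congr 1
  have := hf.intervalIntegral_add_eq (0 - s) 0
  rw [zero_add] at this
  rw [← this]
  congr 1
  ring

/-! ### squares of sums -/

theorem normsq_sum (R : ℕ) (z : ℕ → ℂ) : ‖∑ k ∈ Finset.range R, z k‖ ^ 2
    = ∑ k ∈ Finset.range R, ∑ l ∈ Finset.range R, (z k * (starRingEnd ℂ) (z l)).re := by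
  have h : ((‖∑ k ∈ Finset.range R, z k‖ ^ 2 : ℝ) : ℂ)
      = (∑ k ∈ Finset.range R, z k) * (starRingEnd ℂ) (∑ k ∈ Finset.range R, z k) := by
    rw [Complex.mul_conj, Complex.normSq_eq_norm_sq]
  have h2 := congrArg Complex.re h
  rw [Complex.ofReal_re, map_sum, Finset.sum_mul_sum] at h2
  rw [h2, Complex.re_sum]
  refine Finset.sum_congr rfl fun k _ => ?_
  rw [Complex.re_sum]

theorem self_re (z : ℂ) : (z * (starRingEnd ℂ) z).re = ‖z‖ ^ 2 := by
  rw [Complex.mul_conj, Complex.ofReal_re, Complex.normSq_eq_norm_sq]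

theorem int_re_ec (c : ℂ) (n : ℤ) : ∫ t, (c * ec n t).re ∂μ = if n = 0 then c.re else 0 := by
  have h1 : ∫ t, (c * ec n t).re ∂μ = (∫ t, c * ec n t ∂μ).re := by
    have := integral_re (𝕜 := ℂ) (μ := μ) (f := fun t => c * ec n t)
      (int_of_cont (by fun_prop))
    simpa using this
  rw [h1, integral_const_mul, int_ec]
  split_ifs <;> simp

theorem orth (R : ℕ) (M : ℕ → ℕ → ℂ) :
    ∫ t, (∑ k ∈ Finset.range R, ∑ l ∈ Finset.range R, (M k l * ec ((k : ℤ) - l) t).re) ∂μ
      = ∑ k ∈ Finset.range R, (M k k).re := by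
  rw [integral_finsetSum _ fun k _ => int_of_cont (by fun_prop)]
  refine Finset.sum_congr rfl fun k hk => ?_
  rw [integral_finsetSum _ fun l _ => int_of_cont (by fun_prop)]
  simp only [int_re_ec]
  rw [Finset.sum_eq_single k]
  · simp
  · intro l _ hl
    rw [if_neg]
    intro h
    apply hl
    have : (k : ℤ) = l := by linarith
    exact_mod_cast this.symm
  · intro h; exact absurd hk h

theorem dir (k : ℕ) : ∫ t, ‖∑ j ∈ Finset.range k, ec j t‖ ^ 2 ∂μ = k := by
  have h := orth k (fun _ _ => 1)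
  simp only [Complex.one_re, Finset.sum_const, Finset.card_range, nsmul_eq_mul, mul_one] at h
  rw [← h]
  congr 1
  ext t
  rw [normsq_sum]
  refine Finset.sum_congr rfl fun i _ => Finset.sum_congr rfl fun j _ => ?_
  rw [ec_conj, ← ec_add, one_mul]
  rfl

/-! ### Fejér kernels -/

@[fun_prop]
theorem cont_Fe {X : Type*} [TopologicalSpace X] (m : ℕ) {f : X → ℝ} (hf : Continuous f) :
    Continuous fun x => Fe m (f x) := by unfold Fe; fun_prop

theorem Fe_nonneg (m : ℕ) (t : ℝ) : 0 ≤ Fe m t := by unfold Fe; positivity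

theorem Fe_per (m : ℕ) : Function.Periodic (Fe m) (2 * π) := by
  intro t
  unfold Fe
  simp only [ec_per _ t]

theorem int_Fe {m : ℕ} (hm : 0 < m) : ∫ t, Fe m t ∂μ = 1 := by
  unfold Fe
  rw [integral_const_mul, dir]
  have : (m : ℝ) ≠ 0 := by positivity
  field_simp

theorem norm_ec_sub_one_le (k : ℤ) (s : ℝ) : ‖ec k s - 1‖ ^ 2 ≤ 4 := by
  have h := norm_sub_le (ec k s) 1
  rw [norm_ec, norm_one] at h
  nlinarith [norm_nonneg (ec k s - 1)]

theorem Fe_mul (m k : ℕ) (s : ℝ) :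
    Fe m s * ‖ec k s - 1‖ ^ 2 ≤ 4 * ((m : ℝ)⁻¹ * ‖∑ j ∈ Finset.range k, ec j s‖ ^ 2) := by
  unfold Fe
  have h1 : (∑ j ∈ Finset.range m, ec j s) * (ec k s - 1)
      = (∑ j ∈ Finset.range k, ec j s) * (ec m s - 1) := by
    simp only [ec_pow]
    rw [← geom_sum_mul (ec 1 s) k, ← geom_sum_mul (ec 1 s) m]
    ring
  have h2 : ‖∑ j ∈ Finset.range m, ec j s‖ ^ 2 * ‖ec k s - 1‖ ^ 2
      = ‖∑ j ∈ Finset.range k, ec j s‖ ^ 2 * ‖ec m s - 1‖ ^ 2 := by
    rw [← mul_pow, ← norm_mul, h1, norm_mul, mul_pow]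
  have h3 := norm_ec_sub_one_le m s
  rw [mul_assoc, h2]
  have h4 : 0 ≤ (m : ℝ)⁻¹ * ‖∑ j ∈ Finset.range k, ec j s‖ ^ 2 := by positivity
  nlinarith [mul_le_mul_of_nonneg_left h3 h4]

theorem J_le {m : ℕ} (hm : 0 < m) (k : ℕ) :
    ∫ s, Fe m s * ‖ec k s - 1‖ ^ 2 ∂μ ≤ 4 * min 1 ((k : ℝ) / m) := by
  rcases min_cases 1 ((k : ℝ) / m) with ⟨h, _⟩ | ⟨h, _⟩
  · rw [h]
    calc ∫ s, Fe m s * ‖ec k s - 1‖ ^ 2 ∂μ ≤ ∫ s, Fe m s * 4 ∂μ :=
          integral_mono (int_of_cont (by fun_prop)) (int_of_cont (by fun_prop))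
            fun s => mul_le_mul_of_nonneg_left (norm_ec_sub_one_le k s) (Fe_nonneg m s)
      _ = 4 * 1 := by rw [integral_mul_const, int_Fe hm]; ring
  · rw [h]
    calc ∫ s, Fe m s * ‖ec k s - 1‖ ^ 2 ∂μ
        ≤ ∫ s, 4 * ((m : ℝ)⁻¹ * ‖∑ j ∈ Finset.range k, ec j s‖ ^ 2) ∂μ :=
          integral_mono (int_of_cont (by fun_prop)) (int_of_cont (by fun_prop))
            fun s => Fe_mul m k s
      _ = 4 * ((k : ℝ) / m) := by
          rw [integral_const_mul, integral_const_mul, dir]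
          ring

end Pool.Agent.R938.RPE
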