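import Pool.Agent.R938.RPE.Avg

/-!
# Project RP, piece RP-E: the commutators
-/

set_option autoImplicit false

open MeasureTheory Polynomial Filter Topology
open scoped BigOperators Real

namespace Pool.Agent.R938.RPE

open Pool.Agent.R244.RP

theorem mult_coeff (m : ℕ → ℂ) (P : ℂ[X]) (n : ℕ) : (mult m P).coeff n = m n * P.coeff n := by
  unfold mult
  simp only [finsetSum_coeff, coeff_monomial]
  rw [Finset.sum_ite_eq']
  split_ifs with h
  · rfl
  · rw [notMem_support_iff.1 h]; simp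

theorem ev_zero (P : ℂ[X]) (t : ℝ) : ev P 0 t = P.eval (ec 1 t) := by
  unfold ev ec; simp

theorem ev_bil (σ : ℕ → ℂ) {P Q : ℂ[X]} {A B : ℕ} (hP : P.natDegree < A) (hQ : Q.natDegree < B)
    (z : ℂ) : (mult σ (P * Q)).eval z = ∑ k ∈ Finset.range A, ∑ l ∈ Finset.range B,
      σ (k + l) * (P.coeff k * Q.coeff l) * z ^ (k + l) := by
  have h : mult σ (P * Q) = ∑ k ∈ Finset.range A, ∑ l ∈ Finset.range B,
      monomial (k + l) (σ (k + l) * (P.coeff k * Q.coeff l)) := by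
    ext n
    rw [mult_coeff]
    conv_lhs => rw [P.as_sum_range' A hP, Q.as_sum_range' B hQ, Finset.sum_mul_sum]
    simp only [monomial_mul_monomial, finsetSum_coeff, coeff_monomial, Finset.mul_sum]
    refine Finset.sum_congr rfl fun k _ => Finset.sum_congr rfl fun l _ => ?_
    split_ifs with h
    · rw [h]
    · simp
  rw [h, eval_finsetSum]
  refine Finset.sum_congr rfl fun k _ => ?_
  rw [eval_finsetSum]
  refine Finset.sum_congr rfl fun l _ => ?_
  rw [eval_monomial]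

theorem D_coeff (P : ℂ[X]) (l : ℕ) : (D P).coeff l = l * P.coeff l := by
  unfold D
  rcases l with _ | l
  · simp
  · rw [coeff_X_mul, coeff_derivative]
    push_cast
    ring

theorem D_deg {P : ℂ[X]} {B : ℕ} (hB : P.natDegree + 1 < B) : (D P).natDegree < B := by
  unfold D
  have h1 := natDegree_mul_le (p := (X : ℂ[X])) (q := derivative P)
  have h2 := natDegree_derivative_le P
  have h3 : (X : ℂ[X]).natDegree ≤ 1 := natDegree_X_le
  omega

theorem mult_deg (σ : ℕ → ℂ) (P : ℂ[X]) : (mult σ P).natDegree ≤ P.natDegree := by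
  rw [natDegree_le_iff_coeff_eq_zero]
  intro N hN
  rw [mult_coeff, coeff_eq_zero_of_natDegree_lt hN, mul_zero]

theorem E_eval (σ : ℕ → ℂ) (g h : ℂ[X]) {A B : ℕ} (hA : g.natDegree < A)
    (hB : h.natDegree + 1 < B) (z : ℂ) :
    (mult σ (para g h) - para g (mult σ h)).eval z
      = ∑ k ∈ Finset.range A, ∑ l ∈ Finset.range B,
        (σ (k + l) - σ l) * (((k + l : ℕ) : ℂ)⁻¹ * (g.coeff k * (l * h.coeff l))) * z ^ (k + l) := by
  have h1 : mult σ (para g h) = mult (fun n => σ n * (n : ℂ)⁻¹) (g * D h) := by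
    ext n
    unfold para In
    simp only [mult_coeff]
    ring
  have h2 : para g (mult σ h) = mult (fun n => (n : ℂ)⁻¹) (g * D (mult σ h)) := rfl
  rw [eval_sub, h1, h2, ev_bil _ hA (D_deg hB), ev_bil _ hA (D_deg (B := B) (by
    have := mult_deg σ h
    omega)), ← Finset.sum_sub_distrib]
  refine Finset.sum_congr rfl fun k _ => ?_
  rw [← Finset.sum_sub_distrib]
  refine Finset.sum_congr rfl fun l _ => ?_
  rw [D_coeff, D_coeff, mult_coeff]
  ring

theorem intV {M : ℕ} {v : ℕ → ℝ} (hv : ∀ i, M ≤ i → v i = 0) (s : ℝ) (j : ℕ) :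
    ∫ u, (∑ i ∈ Finset.range M, (v i : ℂ) * ec (i : ℤ) (u - s)) * ec (-(j : ℤ)) u ∂μ
      = v j * ec (-(j : ℤ)) s := by
  have h1 : ∀ u, (∑ i ∈ Finset.range M, (v i : ℂ) * ec (i : ℤ) (u - s)) * ec (-(j : ℤ)) u
      = ∑ i ∈ Finset.range M, ((v i : ℂ) * ec (-(i : ℤ)) s) * ec ((i : ℤ) - j) u := by
    intro u
    rw [Finset.sum_mul]
    refine Finset.sum_congr rfl fun i _ => ?_
    rw [ec_sub_arg, sub_eq_add_neg, ec_add]
    ring
  simp only [h1]
  rw [integral_finsetSum _ fun i _ => int_of_cont (by fun_prop)]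
  simp only [integral_const_mul, int_ec]
  rcases lt_or_ge j M with hj | hj
  · rw [Finset.sum_eq_single j]
    · simp
    · intro i _ hi
      rw [if_neg, mul_zero]
      intro h
      apply hi
      have : (i : ℤ) = j := by linarith
      exact_mod_cast this
    · intro h
      exact absurd (Finset.mem_range.2 hj) h
  · rw [hv j hj, Finset.sum_eq_zero]
    · simp
    · intro i hi
      rw [if_neg, mul_zero]
      intro h
      have : (i : ℤ) = j := by linarith
      have h2 : i = j := by exact_mod_cast this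
      have := Finset.mem_range.1 hi
      omega

theorem E_rep {M : ℕ} {v : ℕ → ℝ} (hv : ∀ i, M ≤ i → v i = 0) (g h : ℂ[X]) {A B : ℕ}
    (hA : g.natDegree < A) (hB : h.natDegree + 1 < B) (s t : ℝ) (σ : ℕ → ℂ)
    (hσ : ∀ j, σ j = (v j : ℂ) * ec (-(j : ℤ)) s) :
    ev (mult σ (para g h) - para g (mult σ h)) 0 t
      = ∫ u, (∑ i ∈ Finset.range M, (v i : ℂ) * ec (i : ℤ) (u - s)) *
        Kf g.coeff (fun l => if l < M then l * h.coeff l else 0) A B u t ∂μ := by
  rw [ev_zero, E_eval σ g h hA hB]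
  set V : ℝ → ℂ := fun u => ∑ i ∈ Finset.range M, (v i : ℂ) * ec (i : ℤ) (u - s) with hV
  have hVc : Continuous V := by simp only [hV]; fun_prop
  have h1 : ∀ u, V u * Kf g.coeff (fun l => if l < M then l * h.coeff l else 0) A B u t
      = ∑ k ∈ Finset.range A, ∑ l ∈ Finset.range B, (((k + l : ℕ) : ℂ)⁻¹ * (g.coeff k *
        (if l < M then l * h.coeff l else 0)) * (ec k t * ec l t)) *
          (V u * ec (-((k + l : ℕ) : ℤ)) u - V u * ec (-(l : ℤ)) u) := by
    intro u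
    unfold Kf
    rw [Finset.mul_sum]
    refine Finset.sum_congr rfl fun k _ => ?_
    rw [Finset.mul_sum]
    refine Finset.sum_congr rfl fun l _ => ?_
    have : ec (-((k + l : ℕ) : ℤ)) u = ec (-(k : ℤ)) u * ec (-(l : ℤ)) u := by
      rw [← ec_add]; congr 1; push_cast; ring
    rw [this]
    ring
  refine Eq.trans ?_ (integral_congr_ae (Eventually.of_forall fun u => (h1 u).symm))
  rw [integral_finsetSum _ fun k _ => int_of_cont (by fun_prop)]
  refine Finset.sum_congr rfl fun k _ => ?_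
  rw [integral_finsetSum _ fun l _ => int_of_cont (by fun_prop)]
  refine Finset.sum_congr rfl fun l _ => ?_
  rw [integral_const_mul, integral_sub (int_of_cont (by fun_prop)) (int_of_cont (by fun_prop)),
    intV hv, intV hv, hσ, hσ, ← ec_pow, Nat.cast_add, ec_add]
  split_ifs with hl
  · push_cast
    ring
  · rw [hv l (by omega), hv (k + l) (by omega)]
    simp

theorem nsq_eq {P : ℂ[X]} {A : ℕ} (hA : P.natDegree < A) :
    nsq P = ∑ k ∈ Finset.range A, ‖P.coeff k‖ ^ 2 := by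
  unfold nsq
  refine Finset.sum_subset (supp_subset_range hA) fun k _ hk => ?_
  rw [notMem_support_iff.1 hk]
  simp

/-- the weight -/
noncomputable def th (m k : ℕ) : ℝ := min (√(m * (1 / (k : ℝ)))) (√(m * (1 / (k : ℝ))))⁻¹

theorem half_c (k : ℕ) (hk : 0 < k) : cc (-(1 / 2)) (k + k) ≤ 2 * √(1 / (k : ℝ)) := by
  rw [cc_val (by norm_num) (by omega)]
  have h1 : (-(1 / 2) + 1 : ℝ) = 1 / 2 := by norm_num
  rw [h1, Real.Gamma_one_half_eq, ← Real.sqrt_eq_rpow]
  have hk' : (0 : ℝ) < k := by exact_mod_cast hk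
  have h2 : √(1 / ((k + k : ℕ) : ℝ)) ≤ √(1 / (k : ℝ)) := by
    apply Real.sqrt_le_sqrt
    apply one_div_le_one_div_of_le hk'
    push_cast
    linarith
  have h3 : √π ≤ 2 := by
    rw [Real.sqrt_le_left (by norm_num)]
    linarith [Real.pi_lt_four]
  have h4 := mul_le_mul h2 h3 (Real.sqrt_nonneg _) (Real.sqrt_nonneg _)
  linarith

theorem three_c (k : ℕ) (hk : 0 < k) : cc (1 / 2) (k + k) ≤ (1 / (k : ℝ)) * √(1 / (k : ℝ)) := by
  rw [cc_val (by norm_num) (by omega)]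
  have hk' : (0 : ℝ) < k := by exact_mod_cast hk
  have hx : (0 : ℝ) < 1 / ((k + k : ℕ) : ℝ) := by positivity
  have h0 : Real.Gamma (1 / 2 + 1) ≤ 1 := by
    rw [Real.Gamma_add_one (by norm_num), Real.Gamma_one_half_eq]
    have h3 : √π ≤ 2 := by
      rw [Real.sqrt_le_left (by norm_num)]
      linarith [Real.pi_lt_four]
    linarith
  rw [Real.rpow_add hx, Real.rpow_one, ← Real.sqrt_eq_rpow]
  have h1 : 1 / ((k + k : ℕ) : ℝ) ≤ 1 / (k : ℝ) := by
    apply one_div_le_one_div_of_le hk'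
    push_cast
    linarith
  have h2 := Real.sqrt_le_sqrt h1
  have h3 : √(1 / ((k + k : ℕ) : ℝ)) * (1 / ((k + k : ℕ) : ℝ)) ≤ √(1 / (k : ℝ)) * (1 / (k : ℝ)) :=
    mul_le_mul h2 h1 hx.le (Real.sqrt_nonneg _)
  have h4 : 0 ≤ √(1 / ((k + k : ℕ) : ℝ)) * (1 / ((k + k : ℕ) : ℝ)) := by positivity
  calc √(1 / ((k + k : ℕ) : ℝ)) * (1 / ((k + k : ℕ) : ℝ)) * Real.Gamma (1 / 2 + 1)
      ≤ √(1 / ((k + k : ℕ) : ℝ)) * (1 / ((k + k : ℕ) : ℝ)) * 1 :=
        mul_le_mul_of_nonneg_left h0 h4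
    _ ≤ (1 / (k : ℝ)) * √(1 / (k : ℝ)) := by linarith

/-- the first weight -/
theorem w1 {m : ℕ} (hm : 0 < m) (k : ℕ) :
    √(m : ℝ) * (cc (-(1 / 2)) (k + k) * (16 * min 1 ((k : ℝ) / m))) ≤ 32 * th m k := by
  rcases Nat.eq_zero_or_pos k with hk | hk
  · subst hk
    simp [th]
  · have hk' : (0 : ℝ) < k := by exact_mod_cast hk
    have hm' : (0 : ℝ) < m := by exact_mod_cast hm
    have h1 := half_c k hk
    have hmin : 0 ≤ min 1 ((k : ℝ) / m) := le_min zero_le_one (by positivity)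
    have h2 : √(m : ℝ) * (cc (-(1 / 2)) (k + k) * (16 * min 1 ((k : ℝ) / m)))
        ≤ √(m : ℝ) * (2 * √(1 / (k : ℝ)) * (16 * min 1 ((k : ℝ) / m))) := by
      apply mul_le_mul_of_nonneg_left _ (Real.sqrt_nonneg _)
      exact mul_le_mul_of_nonneg_right h1 (by linarith)
    refine h2.trans (le_of_eq ?_)
    have h3 : √(m : ℝ) * √(1 / (k : ℝ)) = √(m * (1 / (k : ℝ))) :=
      (Real.sqrt_mul hm'.le _).symm
    have hx : 0 < √(m * (1 / (k : ℝ))) := Real.sqrt_pos.2 (by positivity)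
    have h4 : √(m * (1 / (k : ℝ))) * min 1 ((k : ℝ) / m) = th m k := by
      unfold th
      rw [mul_min_of_nonneg _ _ hx.le, mul_one]
      congr 1
      have h5 : √(m * (1 / (k : ℝ))) * √(m * (1 / (k : ℝ))) = m * (1 / (k : ℝ)) :=
        Real.mul_self_sqrt (by positivity)
      apply eq_inv_of_mul_eq_one_left
      have : √(m * (1 / (k : ℝ))) * ((k : ℝ) / m) * √(m * (1 / (k : ℝ)))
          = (√(m * (1 / (k : ℝ))) * √(m * (1 / (k : ℝ)))) * ((k : ℝ) / m) := by ring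
      rw [this, h5]
      field_simp
    rw [← h4, ← h3]
    ring

/-- the second weight -/
theorem w2 {m : ℕ} (hm : 0 < m) (l : ℕ) (hl : l < 16 * m) :
    (√(m : ℝ))⁻¹ * ((l : ℝ) ^ 2 * cc (1 / 2) (l + l)) ≤ 16 * th m l := by
  rcases Nat.eq_zero_or_pos l with hk | hk
  · subst hk
    simp [th]
  · have hk' : (0 : ℝ) < l := by exact_mod_cast hk
    have hm' : (0 : ℝ) < m := by exact_mod_cast hm
    have hl' : (l : ℝ) < 16 * m := by exact_mod_cast hl
    have h1 := three_c l hk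
    have h2 : (√(m : ℝ))⁻¹ * ((l : ℝ) ^ 2 * cc (1 / 2) (l + l))
        ≤ (√(m : ℝ))⁻¹ * ((l : ℝ) ^ 2 * ((1 / (l : ℝ)) * √(1 / (l : ℝ)))) := by
      apply mul_le_mul_of_nonneg_left _ (by positivity)
      exact mul_le_mul_of_nonneg_left h1 (by positivity)
    refine h2.trans ?_
    have h3 : √(m : ℝ) * √(1 / (l : ℝ)) = √(m * (1 / (l : ℝ))) :=
      (Real.sqrt_mul hm'.le _).symm
    have hx : 0 < √(m * (1 / (l : ℝ))) := Real.sqrt_pos.2 (by positivity)
    have hy : 0 < √(1 / (l : ℝ)) := Real.sqrt_pos.2 (by positivity)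
    have hz : 0 < √(m : ℝ) := Real.sqrt_pos.2 hm'
    have hyy : √(1 / (l : ℝ)) * √(1 / (l : ℝ)) = 1 / (l : ℝ) := Real.mul_self_sqrt (by positivity)
    have h4 : (√(m : ℝ))⁻¹ * ((l : ℝ) ^ 2 * ((1 / (l : ℝ)) * √(1 / (l : ℝ))))
        = (√(m * (1 / (l : ℝ))))⁻¹ := by
      rw [← h3, mul_inv]
      congr 1
      apply eq_inv_of_mul_eq_one_left
      calc (l : ℝ) ^ 2 * ((1 / (l : ℝ)) * √(1 / (l : ℝ))) * √(1 / (l : ℝ))
          = (l : ℝ) ^ 2 * (1 / (l : ℝ)) * (√(1 / (l : ℝ)) * √(1 / (l : ℝ))) := by ring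
        _ = 1 := by rw [hyy]; field_simp
    rw [h4]
    unfold th
    rw [mul_min_of_nonneg _ _ (by norm_num : (0 : ℝ) ≤ 16)]
    have hxx : √(m * (1 / (l : ℝ))) * √(m * (1 / (l : ℝ))) = m * (1 / (l : ℝ)) :=
      Real.mul_self_sqrt (by positivity)
    refine le_min ?_ ?_
    · rw [inv_le_iff_one_le_mul₀ hx]
      have h5 : 1 ≤ 16 * (m * (1 / (l : ℝ))) := by
        rw [mul_one_div, ← mul_div_assoc, le_div_iff₀ hk']
        linarith
      rw [← hxx] at h5
      linarith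
    · have : 0 < (√(m * (1 / (l : ℝ))))⁻¹ := inv_pos.2 hx
      linarith

theorem th_sum (hL : StmL) {m : ℕ → ℕ} (hm : Lac m) (N k : ℕ) :
    ∑ K ∈ Finset.range N, th (m K) k ≤ 5 := by
  rcases Nat.eq_zero_or_pos k with hk | hk
  · subst hk
    simp [th]
  · exact hL m hm N (1 / (k : ℝ)) (by positivity)

theorem th_nonneg (m k : ℕ) : 0 ≤ th m k := le_min (Real.sqrt_nonneg _) (by positivity)

theorem opt {T c G H : ℝ} (hc : 0 ≤ c) (hG : 0 ≤ G) (hH : 0 ≤ H)
    (h : ∀ l : ℝ, 0 < l → T ≤ c * (l * G + l⁻¹ * H)) : T ≤ 2 * c * (√G * √H) := by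
  have h1 : ∀ ε : ℝ, 0 < ε → T ≤ 2 * c * (√(G + ε) * √(H + ε)) := by
    intro ε hε
    have ha : 0 < √(G + ε) := Real.sqrt_pos.2 (by linarith)
    have hb : 0 < √(H + ε) := Real.sqrt_pos.2 (by linarith)
    have haa : √(G + ε) * √(G + ε) = G + ε := Real.mul_self_sqrt (by linarith)
    have hbb : √(H + ε) * √(H + ε) = H + ε := Real.mul_self_sqrt (by linarith)
    have h2 := h (√(H + ε) / √(G + ε)) (by positivity)
    have h3 : √(H + ε) / √(G + ε) * G + (√(H + ε) / √(G + ε))⁻¹ * H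
        ≤ √(H + ε) / √(G + ε) * (G + ε) + (√(H + ε) / √(G + ε))⁻¹ * (H + ε) := by
      have h4 : 0 < √(H + ε) / √(G + ε) := by positivity
      have h5 : 0 < (√(H + ε) / √(G + ε))⁻¹ := by positivity
      nlinarith
    have h4 : √(H + ε) / √(G + ε) * (G + ε) + (√(H + ε) / √(G + ε))⁻¹ * (H + ε)
        = 2 * (√(G + ε) * √(H + ε)) := by
      rw [← haa, ← hbb, haa, hbb]
      conv_lhs => rw [← haa, ← hbb]
      rw [haa, hbb]
      field_simp
      nlinarith
    rw [h4] at h3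
    have h5 := mul_le_mul_of_nonneg_left h3 hc
    linarith
  have hc1 : Tendsto (fun ε : ℝ => 2 * c * (√(G + ε) * √(H + ε))) (𝓝[>] 0)
      (𝓝 (2 * c * (√(G + 0) * √(H + 0)))) := by
    apply Tendsto.mono_left _ nhdsWithin_le_nhds
    apply Continuous.tendsto
    fun_prop
  rw [add_zero, add_zero] at hc1
  refine ge_of_tendsto hc1 ?_
  filter_upwards [self_mem_nhdsWithin] with ε hε
  exact h1 ε hε

end Pool.Agent.R938.RPE
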