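import Pool.Agent.R938.RPE.Basic

/-!
# Project RP, piece RP-E: the Laplace integrals and the averaged estimate
-/

set_option autoImplicit false

open MeasureTheory Polynomial Filter Topology
open scoped BigOperators Real

namespace Pool.Agent.R938.RPE

open Pool.Agent.R244.RP

/-- Laplace integrals -/
noncomputable def cc (s : ℝ) (n : ℕ) : ℝ := ∫ y in Set.Ioi (0 : ℝ), y ^ s * Real.exp (-(n * y))

theorem cc_nonneg (s : ℝ) (n : ℕ) : 0 ≤ cc s n := by
  unfold cc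
  refine setIntegral_nonneg measurableSet_Ioi fun y hy => ?_
  have : 0 ≤ y ^ s := Real.rpow_nonneg (le_of_lt hy) s
  positivity

theorem cc_int {s : ℝ} (hs : -1 < s) {n : ℕ} (hn : 0 < n) :
    IntegrableOn (fun y : ℝ => y ^ s * Real.exp (-(n * y))) (Set.Ioi 0) := by
  have := integrableOn_rpow_mul_exp_neg_mul_rpow (p := 1) (s := s) (b := n) hs one_pos
    (by exact_mod_cast hn)
  refine this.congr_fun (fun y _ => ?_) measurableSet_Ioi
  simp only [Real.rpow_one, neg_mul]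

theorem cc_val {s : ℝ} (hs : -1 < s) {n : ℕ} (hn : 0 < n) :
    cc s n = (1 / (n : ℝ)) ^ (s + 1) * Real.Gamma (s + 1) := by
  unfold cc
  have := Real.integral_rpow_mul_exp_neg_mul_Ioi (a := s + 1) (r := n) (by linarith)
    (by exact_mod_cast hn)
  simpa using this

@[fun_prop]
theorem cont_conj {X : Type*} [TopologicalSpace X] {f : X → ℂ} (hf : Continuous f) :
    Continuous fun x => (starRingEnd ℂ) (f x) := Complex.continuous_conj.comp hf

theorem sq_term (α : ℕ → ℂ) (A : ℕ) (y : ℝ) :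
    ‖∑ k ∈ Finset.range A, α k * (Real.exp (-(k * y)) : ℂ)‖ ^ 2
      = ∑ k ∈ Finset.range A, ∑ l ∈ Finset.range A,
          (α k * (starRingEnd ℂ) (α l)).re * Real.exp (-(((k + l : ℕ) : ℝ) * y)) := by
  rw [normsq_sum]
  refine Finset.sum_congr rfl fun k _ => Finset.sum_congr rfl fun l _ => ?_
  rw [map_mul, Complex.conj_ofReal]
  have h1 : α k * (Real.exp (-(k * y)) : ℂ) * ((starRingEnd ℂ) (α l) * (Real.exp (-(l * y)) : ℂ))
      = (α k * (starRingEnd ℂ) (α l)) * ((Real.exp (-(((k + l : ℕ) : ℝ) * y)) : ℝ) : ℂ) := by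
    have : Real.exp (-(((k + l : ℕ) : ℝ) * y)) = Real.exp (-(k * y)) * Real.exp (-(l * y)) := by
      rw [← Real.exp_add]; congr 1; push_cast; ring
    rw [this]
    push_cast
    ring
  rw [h1, Complex.re_mul_ofReal]

theorem sq_int_term {α : ℕ → ℂ} (hα : α 0 = 0) {s : ℝ} (hs : -1 < s) (k l : ℕ) :
    IntegrableOn (fun y : ℝ => (α k * (starRingEnd ℂ) (α l)).re *
      (y ^ s * Real.exp (-(((k + l : ℕ) : ℝ) * y)))) (Set.Ioi 0) := by
  rcases Nat.eq_zero_or_pos k with hk | hk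
  · subst hk
    rw [hα]
    simp
  · exact (cc_int hs (n := k + l) (by omega)).const_mul _

theorem sq_int {α : ℕ → ℂ} (hα : α 0 = 0) {s : ℝ} (hs : -1 < s) (A : ℕ) :
    IntegrableOn (fun y : ℝ => y ^ s *
      ‖∑ k ∈ Finset.range A, α k * (Real.exp (-(k * y)) : ℂ)‖ ^ 2) (Set.Ioi 0) ∧
    ∫ y in Set.Ioi (0 : ℝ), y ^ s *
      ‖∑ k ∈ Finset.range A, α k * (Real.exp (-(k * y)) : ℂ)‖ ^ 2
      = ∑ k ∈ Finset.range A, ∑ l ∈ Finset.range A,
          (α k * (starRingEnd ℂ) (α l)).re * cc s (k + l) := by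
  have h1 : ∀ y : ℝ, y ^ s * ‖∑ k ∈ Finset.range A, α k * (Real.exp (-(k * y)) : ℂ)‖ ^ 2
      = ∑ k ∈ Finset.range A, ∑ l ∈ Finset.range A, (α k * (starRingEnd ℂ) (α l)).re *
        (y ^ s * Real.exp (-(((k + l : ℕ) : ℝ) * y))) := by
    intro y
    rw [sq_term, Finset.mul_sum]
    refine Finset.sum_congr rfl fun k _ => ?_
    rw [Finset.mul_sum]
    refine Finset.sum_congr rfl fun l _ => ?_
    ring
  simp only [h1]
  constructor
  · exact integrable_finsetSum _ fun k _ => integrable_finsetSum _ fun l _ => sq_int_term hα hs k l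
  · rw [integral_finsetSum _ fun k _ => integrable_finsetSum _ fun l _ => sq_int_term hα hs k l]
    refine Finset.sum_congr rfl fun k _ => ?_
    rw [integral_finsetSum _ fun l _ => sq_int_term hα hs k l]
    refine Finset.sum_congr rfl fun l _ => ?_
    rw [integral_const_mul]
    rfl

theorem amgm {w x y : ℝ} (hw : 0 < w) : x * y ≤ 1 / 2 * (w * x ^ 2 + w⁻¹ * y ^ 2) := by
  have h : w * (x - w⁻¹ * y) ^ 2 = w * x ^ 2 - 2 * (x * y) + w⁻¹ * y ^ 2 := by
    field_simp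
    ring
  have h2 : 0 ≤ w * (x - w⁻¹ * y) ^ 2 := by positivity
  linarith

theorem lemL (A B : ℕ) {α β : ℕ → ℂ} (hα : α 0 = 0) (hβ : β 0 = 0) {W : ℝ} (hW : 0 < W) :
    ‖∑ k ∈ Finset.range A, ∑ l ∈ Finset.range B, ((k + l : ℕ) : ℂ)⁻¹ * (α k * β l)‖
      ≤ 1 / 2 * (W * ∑ k ∈ Finset.range A, ∑ l ∈ Finset.range A,
          (α k * (starRingEnd ℂ) (α l)).re * cc (-(1 / 2)) (k + l)
        + W⁻¹ * ∑ k ∈ Finset.range B, ∑ l ∈ Finset.range B,
          (β k * (starRingEnd ℂ) (β l)).re * cc (1 / 2) (k + l)) := by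
  set a : ℝ → ℂ := fun y => ∑ k ∈ Finset.range A, α k * (Real.exp (-(k * y)) : ℂ) with ha
  set b : ℝ → ℂ := fun y => ∑ l ∈ Finset.range B, β l * (Real.exp (-(l * y)) : ℂ) with hb
  have hac : Continuous a := by simp only [ha]; fun_prop
  have hbc : Continuous b := by simp only [hb]; fun_prop
  obtain ⟨ia, ea⟩ := sq_int hα (s := -(1 / 2)) (by norm_num) A
  obtain ⟨ib, eb⟩ := sq_int hβ (s := 1 / 2) (by norm_num) B
  have hpt : ∀ y ∈ Set.Ioi (0 : ℝ), ‖a y * b y‖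
      ≤ 1 / 2 * (W * (y ^ (-(1 / 2) : ℝ) * ‖a y‖ ^ 2) + W⁻¹ * (y ^ (1 / 2 : ℝ) * ‖b y‖ ^ 2)) := by
    intro y hy
    have hy' : (0 : ℝ) < y := hy
    have hw : 0 < W * y ^ (-(1 / 2) : ℝ) := mul_pos hW (Real.rpow_pos_of_pos hy' _)
    have h := amgm (x := ‖a y‖) (y := ‖b y‖) hw
    rw [mul_inv, ← Real.rpow_neg hy'.le, neg_neg] at h
    rw [norm_mul]
    linarith
  have hbi : IntegrableOn (fun y : ℝ => 1 / 2 * (W * (y ^ (-(1 / 2) : ℝ) * ‖a y‖ ^ 2)
      + W⁻¹ * (y ^ (1 / 2 : ℝ) * ‖b y‖ ^ 2))) (Set.Ioi 0) :=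
    ((ia.const_mul W).add (ib.const_mul W⁻¹)).const_mul (1 / 2)
  have h1 : ‖∫ y in Set.Ioi (0 : ℝ), a y * b y‖
      ≤ ∫ y in Set.Ioi (0 : ℝ), 1 / 2 * (W * (y ^ (-(1 / 2) : ℝ) * ‖a y‖ ^ 2)
      + W⁻¹ * (y ^ (1 / 2 : ℝ) * ‖b y‖ ^ 2)) := by
    refine norm_integral_le_of_norm_le hbi ?_
    filter_upwards [ae_restrict_mem measurableSet_Ioi] with y hy
    exact hpt y hy
  rw [integral_const_mul, integral_add (ia.const_mul W) (ib.const_mul W⁻¹), integral_const_mul,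
    integral_const_mul] at h1
  simp only [ha, hb] at h1
  rw [ea, eb] at h1
  refine le_trans (le_of_eq ?_) h1
  congr 1
  -- the integral of the product
  have hterm : ∀ k l : ℕ, IntegrableOn (fun y : ℝ => (α k * β l) *
      ((y ^ (0 : ℝ) * Real.exp (-(((k + l : ℕ) : ℝ) * y)) : ℝ) : ℂ)) (Set.Ioi 0) := by
    intro k l
    rcases Nat.eq_zero_or_pos k with hk | hk
    · subst hk
      rw [hα]
      simp
    · exact ((cc_int (s := 0) (by norm_num) (n := k + l) (by omega)).ofReal).const_mul _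
  have hprod : ∀ y : ℝ, (∑ k ∈ Finset.range A, α k * (Real.exp (-(k * y)) : ℂ)) *
      (∑ l ∈ Finset.range B, β l * (Real.exp (-(l * y)) : ℂ))
      = ∑ k ∈ Finset.range A, ∑ l ∈ Finset.range B, (α k * β l) *
      ((y ^ (0 : ℝ) * Real.exp (-(((k + l : ℕ) : ℝ) * y)) : ℝ) : ℂ) := by
    intro y
    rw [Finset.sum_mul_sum]
    refine Finset.sum_congr rfl fun k _ => Finset.sum_congr rfl fun l _ => ?_
    have : Real.exp (-(((k + l : ℕ) : ℝ) * y)) = Real.exp (-(k * y)) * Real.exp (-(l * y)) := by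
      rw [← Real.exp_add]; congr 1; push_cast; ring
    rw [this, Real.rpow_zero]
    push_cast
    ring
  simp only [hprod]
  rw [integral_finsetSum _ fun k _ => integrable_finsetSum _ fun l _ => hterm k l]
  refine Finset.sum_congr rfl fun k _ => ?_
  rw [integral_finsetSum _ fun l _ => hterm k l]
  refine Finset.sum_congr rfl fun l _ => ?_
  rw [integral_const_mul]
  rcases Nat.eq_zero_or_pos k with hk | hk
  · subst hk
    rw [hα]
    simp
  · rw [integral_complex_ofReal]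
    have h2 := cc_val (s := 0) (by norm_num) (n := k + l) (by omega)
    unfold cc at h2
    rw [h2]
    simp only [zero_add, Real.rpow_one, Real.Gamma_one, mul_one]
    push_cast
    ring

/-- orthogonality with weights -/
theorem orth' (R : ℕ) (γ : ℕ → ℂ) (c : ℕ → ℕ → ℝ) :
    ∫ t, (∑ k ∈ Finset.range R, ∑ l ∈ Finset.range R,
      (γ k * ec k t * (starRingEnd ℂ) (γ l * ec l t)).re * c k l) ∂μ
      = ∑ k ∈ Finset.range R, ‖γ k‖ ^ 2 * c k k := by
  have h := orth R (fun k l => γ k * (starRingEnd ℂ) (γ l) * c k l)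
  have h2 : ∑ k ∈ Finset.range R, ‖γ k‖ ^ 2 * c k k
      = ∑ k ∈ Finset.range R, (γ k * (starRingEnd ℂ) (γ k) * (c k k : ℂ)).re := by
    refine Finset.sum_congr rfl fun k _ => ?_
    rw [Complex.re_mul_ofReal, self_re]
  rw [h2, ← h]
  congr 1
  ext t
  refine Finset.sum_congr rfl fun k _ => Finset.sum_congr rfl fun l _ => ?_
  rw [map_mul, ec_conj, sub_eq_add_neg, ec_add, ← Complex.re_mul_ofReal]
  congr 1
  ring

/-- translates of `|e_k - 1|²` -/
theorem shift_le (k : ℤ) (s u : ℝ) :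
    ‖ec k u - 1‖ ^ 2 ≤ 2 * ‖ec k (u - s) - 1‖ ^ 2 + 2 * ‖ec k s - 1‖ ^ 2 := by
  have h1 : ec k u - 1 = (ec k (u - s) - 1) * ec k s + (ec k s - 1) := by
    rw [ec_sub_arg]
    have := ec_neg_mul k s
    linear_combination (-(ec k u)) * this
  have h2 : ‖ec k u - 1‖ ≤ ‖ec k (u - s) - 1‖ + ‖ec k s - 1‖ := by
    rw [h1]
    refine (norm_add_le _ _).trans ?_
    rw [norm_mul, norm_ec, mul_one]
  nlinarith [norm_nonneg (ec k u - 1), norm_nonneg (ec k (u - s) - 1), norm_nonneg (ec k s - 1),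
    sq_nonneg (‖ec k (u - s) - 1‖ - ‖ec k s - 1‖)]

end Pool.Agent.R938.RPE
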